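import Pool.Agent.H63.Mum2

open Filter Topology

set_option autoImplicit false

namespace Pool.Agent.Results.MP_9969af_al.NotHeis
open H63.Mum

universe u

/-- `G` is nilpotent of class at most two, its center is isomorphic to the circle group, and
its Mumford map `G/Z → (G/Z)^` is an isomorphism of topological groups. -/
def IsMumford (G : Type) [Group G] [TopologicalSpace G] : Prop :=
  ∃ (hc : ∀ x y : G, x * y * x⁻¹ * y⁻¹ ∈ Subgroup.center G)
    (ι : Subgroup.center G ≃ₜ* Circle)
    (Φ : (G ⧸ Subgroup.center G) ≃ₜ* PontryaginDual (G ⧸ Subgroup.center G)),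
    ∀ x y : G, Φ (x : G ⧸ Subgroup.center G) (y : G ⧸ Subgroup.center G) =
      ι ⟨x * y * x⁻¹ * y⁻¹, hc x y⟩

/-- `G` is isomorphic, as a topological group, to some `H(w)` on `A × E × F`. -/
def IsGenHeisenberg (G : Type) [Group G] [TopologicalSpace G] : Prop :=
  ∃ (A E F : Type u) (_ : AddCommGroup A) (_ : AddCommGroup E) (_ : AddCommGroup F)
    (_ : TopologicalSpace A) (_ : TopologicalSpace E) (_ : TopologicalSpace F)
    (_ : IsTopologicalAddGroup A) (_ : IsTopologicalAddGroup E) (_ : IsTopologicalAddGroup F)
    (w : E →+ F →+ A) (_ : Continuous fun p : E × F => w p.1 p.2) (φ : G ≃ₜ A × E × F),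
    ∀ x y : G, φ (x * y) =
      ((φ x).1 + (φ y).1 + w (φ x).2.1 (φ y).2.2, (φ x).2.1 + (φ y).2.1, (φ x).2.2 + (φ y).2.2)

/-- the central extension of `K` by the circle -/
def GG : Type := UnitAddCircle × K

noncomputable instance : TopologicalSpace GG :=
  inferInstanceAs (TopologicalSpace (UnitAddCircle × K))
instance : T2Space GG := inferInstanceAs (T2Space (UnitAddCircle × K))
instance : LocallyCompactSpace GG := inferInstanceAs (LocallyCompactSpace (UnitAddCircle × K))
instance : SigmaCompactSpace GG := inferInstanceAs (SigmaCompactSpace (UnitAddCircle × K))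

def mkG (t : UnitAddCircle) (x : K) : GG := (t, x)
def tc (g : GG) : UnitAddCircle := Prod.fst g
def kc (g : GG) : K := Prod.snd g

theorem GG.ext' {g h : GG} (h1 : tc g = tc h) (h2 : kc g = kc h) : g = h := Prod.ext h1 h2

@[simp] theorem tc_mk (t : UnitAddCircle) (x : K) : tc (mkG t x) = t := rfl
@[simp] theorem kc_mk (t : UnitAddCircle) (x : K) : kc (mkG t x) = x := rfl

theorem cont_tc : Continuous tc := continuous_fst
theorem cont_kc : Continuous kc := continuous_snd
theorem cont_mk {X : Type*} [TopologicalSpace X] {f : X → UnitAddCircle} {g : X → K}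
    (hf : Continuous f) (hg : Continuous g) : Continuous fun x => mkG (f x) (g x) :=
  hf.prodMk hg

noncomputable instance : Mul GG := ⟨fun g h => mkG (tc g + tc h + β (kc g) (kc h)) (kc g + kc h)⟩
noncomputable instance : One GG := ⟨mkG 0 0⟩
noncomputable instance : Inv GG := ⟨fun g => mkG (-tc g + β (kc g) (kc g)) (-kc g)⟩

theorem mul_def (g h : GG) : g * h = mkG (tc g + tc h + β (kc g) (kc h)) (kc g + kc h) := rfl
theorem one_def : (1 : GG) = mkG 0 0 := rfl
theorem inv_def (g : GG) : g⁻¹ = mkG (-tc g + β (kc g) (kc g)) (-kc g) := rfl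

noncomputable instance : Group GG := Group.ofLeftAxioms
  (fun a b c => by
    apply GG.ext'
    · simp only [mul_def, tc_mk, kc_mk, map_add, AddMonoidHom.add_apply]; abel
    · simp only [mul_def, tc_mk, kc_mk, add_assoc])
  (fun a => by apply GG.ext' <;> simp [mul_def, one_def])
  (fun a => by apply GG.ext' <;> simp [mul_def, one_def, inv_def])

@[simp] theorem tc_mul (g h : GG) : tc (g * h) = tc g + tc h + β (kc g) (kc h) := rfl
@[simp] theorem kc_mul (g h : GG) : kc (g * h) = kc g + kc h := rfl
@[simp] theorem tc_inv (g : GG) : tc g⁻¹ = -tc g + β (kc g) (kc g) := rfl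
@[simp] theorem kc_inv (g : GG) : kc g⁻¹ = -kc g := rfl
@[simp] theorem tc_one : tc 1 = 0 := rfl
@[simp] theorem kc_one : kc 1 = 0 := rfl

theorem cont_β {X : Type*} [TopologicalSpace X] {f g : X → K}
    (hf : Continuous f) (hg : Continuous g) : Continuous fun x => β (f x) (g x) := by
  have h := (SB_cont good_b).comp (hf.prodMk hg)
  simp only [Function.comp_def] at h
  unfold β
  exact h

theorem cont_E {X : Type*} [TopologicalSpace X] {f g : X → K}
    (hf : Continuous f) (hg : Continuous g) : Continuous fun x => E (f x) (g x) := by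
  have h := (SB_cont good_e).comp (hf.prodMk hg)
  simp only [Function.comp_def] at h
  unfold E
  exact h

instance : IsTopologicalGroup GG where
  continuous_mul := cont_mk
    (((cont_tc.comp continuous_fst).add (cont_tc.comp continuous_snd)).add
      (cont_β (cont_kc.comp continuous_fst) (cont_kc.comp continuous_snd)))
    ((cont_kc.comp continuous_fst).add (cont_kc.comp continuous_snd))
  continuous_inv := cont_mk (cont_tc.neg.add (cont_β cont_kc cont_kc)) cont_kc.neg

theorem mul_swap (g h : GG) : g * h = mkG (E (kc g) (kc h)) 0 * (h * g) := by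
  apply GG.ext'
  · simp only [tc_mul, tc_mk, kc_mk, map_zero, AddMonoidHom.zero_apply, add_zero]
    rw [β_sub (kc g) (kc h)]; abel
  · simp [add_comm]

theorem comm_eq (g h : GG) : g * h * g⁻¹ * h⁻¹ = mkG (E (kc g) (kc h)) 0 := by
  rw [mul_swap g h]; group

theorem mem_center {g : GG} : g ∈ Subgroup.center GG ↔ kc g = 0 := by
  rw [Subgroup.mem_center_iff]
  constructor
  · intro h
    apply E_nondeg
    intro y
    have h1 := comm_eq g (mkG 0 y)
    rw [← h (mkG 0 y)] at h1
    have h2 := congrArg tc h1
    simp only [mul_inv_cancel_right, mul_inv_cancel, tc_one, tc_mk, kc_mk] at h2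
    exact h2.symm
  · intro h y
    rw [mul_swap y g, h, map_zero, ← one_def, one_mul]

noncomputable def hc : UnitAddCircle ≃ₜ Circle := AddCircle.homeomorphCircle one_ne_zero

theorem hc_add (s t : UnitAddCircle) : hc (s + t) = hc s * hc t := by
  simp [hc, AddCircle.homeomorphCircle_apply, AddCircle.toCircle_add]

theorem hc_zero : hc 0 = 1 := by
  simp [hc, AddCircle.homeomorphCircle_apply]

noncomputable def iota : Subgroup.center GG ≃ₜ* Circle where
  toFun z := hc (tc z.1)
  invFun c := ⟨mkG (hc.symm c) 0, mem_center.2 rfl⟩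
  left_inv z := by
    apply Subtype.ext
    apply GG.ext'
    · simp
    · simp [mem_center.1 z.2]
  right_inv c := by simp
  map_mul' a b := by
    simp [mem_center.1 a.2, hc_add]
  continuous_toFun := hc.continuous.comp (cont_tc.comp continuous_subtype_val)
  continuous_invFun := (cont_mk hc.symm.continuous continuous_const).subtype_mk _

abbrev Q := GG ⧸ Subgroup.center GG

noncomputable def chr0 (x : K) : GG →* Circle where
  toFun h := hc (E x (kc h))
  map_one' := by simp [hc_zero]
  map_mul' a b := by simp [hc_add]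

noncomputable def chr1 (x : K) : Q →* Circle :=
  QuotientGroup.lift _ (chr0 x) (by
    intro g hg
    simp [chr0, mem_center.1 hg, hc_zero])

theorem chr1_mk (x : K) (h : GG) : chr1 x (h : Q) = hc (E x (kc h)) := rfl

theorem chr1_cont : Continuous fun p : GG × Q => chr1 (kc p.1) p.2 := by
  have hq : IsOpenQuotientMap (Prod.map (id : GG → GG) (QuotientGroup.mk : GG → Q)) :=
    IsOpenQuotientMap.id.prodMap QuotientGroup.isOpenQuotientMap_mk
  rw [← hq.continuous_comp_iff]
  exact hc.continuous.comp (cont_E (cont_kc.comp continuous_fst) (cont_kc.comp continuous_snd))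

noncomputable def chr2 (g : GG) : Q →ₜ* Circle where
  toMonoidHom := chr1 (kc g)
  continuous_toFun := by
    have h := chr1_cont.comp (Continuous.prodMk_right g)
    simp only [Function.comp_def] at h
    exact h

noncomputable def Psi : GG →* PontryaginDual Q where
  toFun g := chr2 g
  map_one' := by
    apply PontryaginDual.ext
    intro a
    induction a using QuotientGroup.induction_on with
    | H h =>
      change hc (E 0 (kc h)) = 1
      simp [hc_zero]
  map_mul' a b := by
    apply PontryaginDual.ext
    intro c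
    induction c using QuotientGroup.induction_on with
    | H h =>
      change hc (E (kc a + kc b) (kc h)) = hc (E (kc a) (kc h)) * hc (E (kc b) (kc h))
      simp [hc_add]

theorem Psi_mk (g h : GG) : Psi g (h : Q) = hc (E (kc g) (kc h)) := rfl

theorem Psi_cont : Continuous Psi :=
  ContinuousMonoidHom.continuous_of_continuous_uncurry chr2 chr1_cont

theorem Psi_surj : Function.Surjective Psi := by
  intro χ
  have hm : ∀ g h : GG, kc g = kc h → (g : Q) = (h : Q) := by
    intro g h e
    rw [QuotientGroup.eq, mem_center]; simp [e]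
  let χ' : K →+ UnitAddCircle := AddMonoidHom.mk' (fun y => hc.symm (χ (mkG 0 y : GG))) (by
    intro a b
    apply hc.injective
    rw [hc_add]
    simp only [Homeomorph.apply_symm_apply]
    rw [← map_mul, ← QuotientGroup.mk_mul, hm (mkG 0 (a + b)) (mkG 0 a * mkG 0 b) rfl])
  have hcont : Continuous χ' :=
    hc.symm.continuous.comp ((map_continuous χ).comp
      (QuotientGroup.continuous_mk.comp (cont_mk continuous_const continuous_id)))
  obtain ⟨x, hx⟩ := E_dual χ' hcont
  refine ⟨mkG 0 x, PontryaginDual.ext fun a => ?_⟩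
  induction a using QuotientGroup.induction_on with
  | H h =>
    rw [Psi_mk, kc_mk, ← hx, hm h (mkG 0 (kc h)) rfl]
    exact hc.apply_symm_apply _

theorem Psi_ker (g : GG) : Psi g = 1 ↔ g ∈ Subgroup.center GG := by
  rw [mem_center]
  constructor
  · intro h
    apply E_nondeg
    intro y
    apply hc.injective
    have := Psi_mk g (mkG 0 y)
    rw [h] at this
    rw [hc_zero]
    exact this.symm
  · intro h
    apply PontryaginDual.ext
    intro a
    induction a using QuotientGroup.induction_on with
    | H y => rw [Psi_mk, h]; simp [hc_zero]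

theorem Psi_open : IsOpenMap Psi := MonoidHom.isOpenMap_of_sigmaCompact Psi Psi_surj Psi_cont

noncomputable def PsiQ : Q →* PontryaginDual Q :=
  QuotientGroup.lift _ Psi (fun g hg => (Psi_ker g).2 hg)

theorem PsiQ_mk (g : GG) : PsiQ (g : Q) = Psi g := rfl

theorem PsiQ_bij : Function.Bijective PsiQ := by
  constructor
  · rw [injective_iff_map_eq_one]
    intro a ha
    induction a using QuotientGroup.induction_on with
    | H g => exact (QuotientGroup.eq_one_iff g).2 ((Psi_ker g).1 ha)
  · intro χ
    obtain ⟨g, hg⟩ := Psi_surj χ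
    exact ⟨g, hg⟩

theorem PsiQ_cont : Continuous PsiQ :=
  (QuotientGroup.isOpenQuotientMap_mk.continuous_comp_iff).1 Psi_cont

theorem PsiQ_open : IsOpenMap PsiQ :=
  IsOpenMap.of_comp QuotientGroup.continuous_mk QuotientGroup.mk_surjective Psi_open

noncomputable def Phi : Q ≃ₜ* PontryaginDual Q :=
  { MulEquiv.ofBijective PsiQ PsiQ_bij,
    (Equiv.ofBijective PsiQ PsiQ_bij).toHomeomorphOfContinuousOpen PsiQ_cont PsiQ_open with }

theorem mumford : IsMumford GG := by
  refine ⟨fun x y => by rw [comm_eq]; exact mem_center.2 rfl, iota, Phi, fun x y => ?_⟩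
  change hc (E (kc x) (kc y)) = hc (tc (x * y * x⁻¹ * y⁻¹))
  rw [comm_eq, tc_mk]

theorem not_heis : ¬ IsGenHeisenberg.{u} GG := by
  rintro ⟨A, B, C, _, _, _, _, _, _, _, _, _, w, -, φ, hφ⟩
  have h1 : φ 1 = (0, 0, 0) := by
    have h := hφ 1 1
    rw [one_mul] at h
    have hb : (φ 1).2.1 = 0 := by simpa using congrArg (fun p => p.2.1) h
    have hc : (φ 1).2.2 = 0 := by simpa using congrArg (fun p => p.2.2) h
    have ha : (φ 1).1 = 0 := by simpa [hb] using congrArg (fun p => p.1) h
    exact Prod.ext ha (Prod.ext hb hc)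
  have hz : ∀ g h : GG, φ (mkG (E (kc g) (kc h)) 0) =
      (w (φ g).2.1 (φ h).2.2 - w (φ h).2.1 (φ g).2.2, 0, 0) := by
    intro g h
    have e := congrArg φ (mul_swap g h)
    rw [hφ, hφ, hφ] at e
    set z := φ (mkG (E (kc g) (kc h)) 0)
    have hb : z.2.1 = 0 := by
      have := congrArg (fun p => p.2.1) e
      simp only at this
      linear_combination (norm := abel) -this
    have hc : z.2.2 = 0 := by
      have := congrArg (fun p => p.2.2) e
      simp only at this
      linear_combination (norm := abel) -this
    have ha := congrArg (fun p => p.1) e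
    simp only [hb, map_zero, AddMonoidHom.zero_apply, add_zero] at ha
    refine Prod.ext ?_ (Prod.ext hb hc)
    simp only
    linear_combination (norm := abel) -ha
  let P : GG → GG := fun g => φ.symm (0, (φ g).2.1, 0)
  have hP : ∀ g, φ (P g) = (0, (φ g).2.1, 0) := fun g => φ.apply_symm_apply _
  have hPm : ∀ g h, P (g * h) = P g * P h := by
    intro g h
    apply φ.injective
    rw [hφ, hP, hP, hP, hφ]; simp
  have hPP : ∀ g, P (P g) = P g := by
    intro g
    apply φ.injective
    rw [hP, hP]
  have hP0 : ∀ g, kc g = 0 → kc (P g) = 0 := by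
    intro g hg
    have k1 : ∀ c, w (φ g).2.1 c = 0 := by
      intro c
      have := hz g (φ.symm (0, 0, c))
      rw [hg, map_zero, AddMonoidHom.zero_apply, ← one_def, h1] at this
      simpa using (congrArg (fun p => p.1) this).symm
    apply E_nondeg
    intro y
    have := hz (P g) (mkG 0 y)
    rw [hP] at this
    simp only [k1, map_zero, sub_zero] at this
    rw [← h1] at this
    exact congrArg tc (φ.injective this)
  have hPk : ∀ g h, kc g = kc h → kc (P g) = kc (P h) := by
    intro g h e
    have : g = (g * h⁻¹) * h := by group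
    rw [this, hPm, kc_mul, hP0 _ (by simp [e]), zero_add]
  let π : K →+ K := AddMonoidHom.mk' (fun x => kc (P (mkG 0 x))) (by
    intro a b
    rw [hPk (mkG 0 (a + b)) (mkG 0 a * mkG 0 b) rfl, hPm, kc_mul])
  have hπ : ∀ x, π x = kc (P (mkG 0 x)) := fun _ => rfl
  refine no_proj π ?_ (fun x y => ?_) (fun x => ?_)
  · exact cont_kc.comp (φ.symm.continuous.comp (continuous_const.prodMk
      ((continuous_fst.comp (continuous_snd.comp (φ.continuous.comp
        (cont_mk continuous_const continuous_id)))).prodMk continuous_const)))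
  · have a1 := hz (mkG 0 x) (mkG 0 y)
    have a2 := hz (P (mkG 0 y)) (mkG 0 x)
    have a3 := hz (P (mkG 0 x)) (mkG 0 y)
    rw [hP] at a2 a3
    simp only [kc_mk, map_zero, sub_zero, ← hπ] at a1 a2 a3
    have a4 : φ (mkG (E x y) 0 * mkG (E (π y) x) 0) = φ (mkG (E (π x) y) 0) := by
      rw [hφ, a1, a2, a3]; simp
    simpa using congrArg tc (φ.injective a4)
  · rw [hπ, hπ, hPk (mkG 0 (kc (P (mkG 0 x)))) (P (mkG 0 x)) rfl, hPP]

theorem result : ∃ (G : Type) (_ : Group G) (_ : TopologicalSpace G),
    IsTopologicalGroup G ∧ T2Space G ∧ LocallyCompactSpace G ∧ IsMumford G ∧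
      ¬ IsGenHeisenberg.{u} G :=
  ⟨GG, inferInstance, inferInstance, inferInstance, inferInstance, inferInstance, mumford,
    not_heis⟩

end Pool.Agent.Results.MP_9969af_al.NotHeis
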